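import Pool.Agent.H34.TAM.Stmts

set_option autoImplicit false

noncomputable section

namespace Pool.TAM

open Pool.CGR Pool.CGS

namespace N2M66

open TWO66

theorem left {A : Type} [CStarAlgebra A] {τ : A →ₗ[ℂ] ℂ} (hτ : IsTrace τ) (a b : A) :
    n2 τ (a * b) ≤ ‖a‖ * n2 τ b := by
  letI := CStarAlgebra.spectralOrder A
  letI := CStarAlgebra.spectralOrderedRing A
  have h1 : star a * a ≤ algebraMap ℝ A (‖a‖ ^ 2) := by
    have := CStarAlgebra.star_mul_le_algebraMap_norm_sq (a := a)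
    exact this
  have h2 : 0 ≤ algebraMap ℝ A (‖a‖ ^ 2) - star a * a := sub_nonneg.2 h1
  obtain ⟨c, hc⟩ := CStarAlgebra.nonneg_iff_eq_star_mul_self.1 h2
  have h3 := (hτ.pos (c * b)).1
  have e : star (c * b) * (c * b) =
      ((‖a‖ ^ 2 : ℝ) : ℂ) • (star b * b) - star (a * b) * (a * b) := by
    have : star (c * b) * (c * b) = star b * (star c * c) * b := by
      rw [star_mul]; simp only [mul_assoc]
    rw [this, ← hc, mul_sub, sub_mul, star_mul]
    congr 1
    · rw [Algebra.algebraMap_eq_smul_one, mul_smul_comm, mul_one, smul_mul_assoc]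
      exact (Complex.coe_smul (‖a‖ ^ 2) (star b * b)).symm
    · simp only [mul_assoc]
  rw [e, map_sub, map_smul, smul_eq_mul, Complex.sub_re, Complex.re_ofReal_mul,
    ← n2_sq hτ, ← n2_sq hτ, ← mul_pow] at h3
  have h4 : n2 τ (a * b) ^ 2 ≤ (‖a‖ * n2 τ b) ^ 2 := by linarith
  exact abs_le_of_sq_le_sq' h4 (mul_nonneg (norm_nonneg _) (n2_nonneg _)) |>.2

end N2M66

theorem n2m_thm : N2MStmt := by
  intro A _ τ hτ a b
  refine ⟨N2M66.left hτ a b, ?_⟩
  have h := N2M66.left hτ (star b) (star a)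
  rwa [← star_mul, TWO66.n2_star hτ, TWO66.n2_star hτ, norm_star, mul_comm] at h

end Pool.TAM
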